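import Pool.Agent.H49.HR6

set_option autoImplicit false

namespace Pool.Agent.Results.MP_7fb4a2_an.NoFactor

open Pool.Agent.H49.HR TopologicalSpace

theorem result :
    ∃ (X : Type) (_ : TopologicalSpace X) (_ : CompactSpace X) (_ : MetrizableSpace X)
      (T : X ≃ₜ X) (x₀ : X), Nontrivial X ∧ RecTrans X T ∧ Trans T x₀ ∧
      (∀ F : C(X, ℂ), InH (fun n => F ((T ^ n) x₀))) ∧
      (∀ F : C(X, ℂ), (fun n : ℤ => F ((T ^ n) x₀)) ∈ FS → ∃ c, ∀ n : ℤ, F ((T ^ n) x₀) = c) ∧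
      ∀ (Y : Type) [TopologicalSpace Y] [CompactSpace Y] [T2Space Y] (R : Y ≃ₜ Y) (π : X → Y),
        Factor T R π → Rep ℂ Y R → Subsingleton Y := by
  obtain ⟨f, _, hn, h1, h2, -, -, -, hN⟩ := main
  exact ⟨Xf f, inferInstance, inferInstance, inferInstance, sig f, _, hn, h1, sig_trans f, h2,
    nil_FS hN, fun Y _ _ _ R π hπ h => nil_factor (sig_trans f) hN hπ
      (noChain_group h (groupFactor_self _))⟩

end Pool.Agent.Results.MP_7fb4a2_an.NoFactor
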